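import Mathlib

/-!
# The combinatorics of the lower bound: the ordered hypercube

The pair `(a, b)` is an edge if `b = a + 2^k` and the binary digit of `a` at the place `k` is `0`.
-/

set_option autoImplicit false

namespace Pool.Agent.CLow

/-- The edges: `b = a + 2^k` where `a` has the digit `0` at the place `k ≤ K`, `b < 2^(K+1)`. -/
def Ed (K a b : ℕ) : Prop :=
  ∃ k ≤ K, ∃ m < 2 ^ K, a = 2 ^ (k + 1) * (m / 2 ^ k) + m % 2 ^ k ∧ b = a + 2 ^ k

/-- The data of an edge. -/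
theorem Ed.data {K a b : ℕ} (h : Ed K a b) : ∃ k q r : ℕ, k ≤ K ∧ r < 2 ^ k ∧
    a = 2 ^ (k + 1) * q + r ∧ b = 2 ^ (k + 1) * q + r + 2 ^ k ∧ b < 2 ^ (K + 1) := by
  obtain ⟨k, hk, m, hm, rfl, rfl⟩ := h
  have hp : 0 < 2 ^ k := by positivity
  refine ⟨k, m / 2 ^ k, m % 2 ^ k, hk, Nat.mod_lt _ hp, rfl, rfl, ?_⟩
  have h1 : m / 2 ^ k < 2 ^ (K - k) := by
    rw [Nat.div_lt_iff_lt_mul hp, ← pow_add]
    rwa [Nat.sub_add_cancel hk]
  have h2 : m % 2 ^ k < 2 ^ k := Nat.mod_lt _ hp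
  have h3 : 2 ^ (K + 1) = 2 ^ (k + 1) * 2 ^ (K - k) := by
    rw [← pow_add]; congr 1; omega
  rw [h3]
  calc 2 ^ (k + 1) * (m / 2 ^ k) + m % 2 ^ k + 2 ^ k < 2 ^ (k + 1) * (m / 2 ^ k) + 2 ^ (k + 1) := by
        rw [pow_succ]; omega
    _ = 2 ^ (k + 1) * (m / 2 ^ k + 1) := by ring
    _ ≤ 2 ^ (k + 1) * 2 ^ (K - k) := Nat.mul_le_mul_left _ h1

theorem Ed.lt {K a b : ℕ} (h : Ed K a b) : a < b := by
  obtain ⟨k, q, r, -, -, rfl, rfl, -⟩ := h.data
  have : 0 < 2 ^ k := by positivity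
  omega

theorem Ed.lt' {K a b : ℕ} (h : Ed K a b) : b < 2 ^ (K + 1) := by
  obtain ⟨k, q, r, -, -, rfl, rfl, h⟩ := h.data
  exact h

/-- Division by a larger power. -/
theorem div_eq_of {k l x y : ℕ} (hkl : k ≤ l) (h : x / 2 ^ k = y / 2 ^ k) :
    x / 2 ^ l = y / 2 ^ l := by
  obtain ⟨d, rfl⟩ := Nat.exists_eq_add_of_le hkl
  rw [pow_add, ← Nat.div_div_eq_div_mul, ← Nat.div_div_eq_div_mul, h]

/-- The block of a point between `a` and `b`. -/
theorem block {k q r s : ℕ} (h1 : 2 ^ (k + 1) * q + r ≤ s) (h2 : s < 2 ^ (k + 1) * q + r + 2 ^ k)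
    (hr : r < 2 ^ k) : s / 2 ^ (k + 1) = q := by
  have hp : 0 < 2 ^ (k + 1) := by positivity
  have h3 : 2 ^ (k + 1) = 2 ^ k * 2 := pow_succ _ _
  rw [Nat.div_eq_iff hp]
  constructor
  · nlinarith
  · have : q * 2 ^ (k + 1) + 2 ^ (k + 1) - 1 = 2 ^ (k + 1) * q + 2 ^ (k + 1) - 1 := by
      rw [mul_comm]
    omega

theorem div_low {k q r : ℕ} (hr : r < 2 ^ k) : (2 ^ (k + 1) * q + r) / 2 ^ k = 2 * q := by
  have hp : 0 < 2 ^ k := by positivity
  have : 2 ^ (k + 1) * q + r = r + 2 ^ k * (2 * q) := by ring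
  rw [this, Nat.add_mul_div_left _ _ hp, Nat.div_eq_of_lt hr, zero_add]

theorem div_high {k q r : ℕ} (hr : r < 2 ^ k) :
    (2 ^ (k + 1) * q + r + 2 ^ k) / 2 ^ k = 2 * q + 1 := by
  have hp : 0 < 2 ^ k := by positivity
  have : 2 ^ (k + 1) * q + r + 2 ^ k = r + 2 ^ k * (2 * q + 1) := by ring
  rw [this, Nat.add_mul_div_left _ _ hp, Nat.div_eq_of_lt hr, zero_add]

/-- After a step to the right the digit of `s` at the new level is `0`. -/
theorem even_right {K x y y' s : ℕ} (h : Ed K x y) (h' : Ed K x y') (hy : y < y') (h1 : x ≤ s)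
    (h2 : s < y) : ∀ l, y' = x + 2 ^ l → s / 2 ^ l % 2 = 0 := by
  intro l hl
  obtain ⟨k, q, r, -, hr, hx, hy1, -⟩ := h.data
  obtain ⟨k', q', r', -, hr', hx', hy1', -⟩ := h'.data
  have e1 : 2 ^ l = 2 ^ k' := by omega
  have e2 : l = k' := Nat.pow_right_injective le_rfl e1
  subst e2
  have e3 : 2 ^ k < 2 ^ l := by omega
  have e4 : k < l := (Nat.pow_lt_pow_iff_right (by norm_num)).1 e3
  have e5 : s / 2 ^ (k + 1) = q := block (by omega) (by omega) hr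
  have e6 : x / 2 ^ (k + 1) = q := block (by omega) (by omega) hr
  have e7 : s / 2 ^ l = x / 2 ^ l := div_eq_of e4 (e5.trans e6.symm)
  rw [e7, hx', div_low hr']
  omega

/-- Before a step down the digit of `s` at the old level is `1`. -/
theorem odd_down {K x x' y s : ℕ} (h : Ed K x y) (h' : Ed K x' y) (hx : x < x') (h1 : x' ≤ s)
    (h2 : s < y) : ∀ l, y = x + 2 ^ l → s / 2 ^ l % 2 = 1 := by
  intro l hl
  obtain ⟨k, q, r, -, hr, hx1, hy1, -⟩ := h.data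
  obtain ⟨k', q', r', -, hr', hx1', hy1', -⟩ := h'.data
  have e1 : 2 ^ l = 2 ^ k := by omega
  have e2 : l = k := Nat.pow_right_injective le_rfl e1
  subst e2
  have e3 : 2 ^ k' < 2 ^ l := by omega
  have e4 : k' < l := (Nat.pow_lt_pow_iff_right (by norm_num)).1 e3
  have e5 : s / 2 ^ (k' + 1) = q' := block (by omega) (by omega) hr'
  have e6 : y / 2 ^ (k' + 1) = q' := by
    rw [hy1']
    have hp : 0 < 2 ^ (k' + 1) := by positivity
    have h3 : 2 ^ (k' + 1) = 2 ^ k' * 2 := pow_succ _ _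
    have : 2 ^ (k' + 1) * q' + r' + 2 ^ k' = (r' + 2 ^ k') + 2 ^ (k' + 1) * q' := by ring
    rw [this, Nat.add_mul_div_left _ _ hp, Nat.div_eq_of_lt (by omega), zero_add]
  have e7 : s / 2 ^ l = y / 2 ^ l := div_eq_of e4 (e5.trans e6.symm)
  rw [e7, hy1, div_high hr]
  omega

/-- One step: to the right in a row or down in a column. -/
def Step (K : ℕ) (e f : ℕ × ℕ) : Prop :=
  Ed K e.1 e.2 ∧ Ed K f.1 f.2 ∧ ((e.1 = f.1 ∧ e.2 < f.2) ∨ (e.2 = f.2 ∧ e.1 < f.1))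

/-- There is a path of steps. -/
def Reach (K : ℕ) : ℕ × ℕ → ℕ × ℕ → Prop := Relation.ReflTransGen (Step K)

/-- A path which does not pass the row `s` turns only once. -/
theorem reach_corner {K a b s : ℕ} (h0 : Ed K a b) (hsb : s < b) {f : ℕ × ℕ}
    (h : Reach K (a, b) f) : f.1 ≤ s → Ed K f.1 f.2 ∧
      (f.2 = b ∨ (b < f.2 ∧ Ed K f.1 b ∧ ∀ l, f.2 = f.1 + 2 ^ l → s / 2 ^ l % 2 = 0)) := by
  induction h with
  | refl => exact fun _ => ⟨h0, Or.inl rfl⟩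
  | @tail f g _ hst ih =>
    intro hg
    obtain ⟨hf, hg', hcase⟩ := hst
    refine ⟨hg', ?_⟩
    rcases hcase with ⟨h1, h2⟩ | ⟨h1, h2⟩
    · -- to the right
      obtain ⟨-, ih⟩ := ih (by omega)
      rw [← h1] at hg' ⊢
      rcases ih with ih | ⟨ih1, ih2, -⟩
      · rw [ih] at hf h2
        exact Or.inr ⟨h2, hf, even_right hf hg' h2 (by omega) hsb⟩
      · exact Or.inr ⟨by omega, ih2, even_right hf hg' h2 (by omega) (by omega)⟩
    · -- down
      obtain ⟨-, ih⟩ := ih (by omega)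
      rw [← h1]
      rcases ih with ih | ⟨ih1, ih2, ih3⟩
      · exact Or.inl ih
      · exfalso
        rw [← h1] at hg'
        obtain ⟨k, q, r, -, -, e1, e2, -⟩ := hf.data
        have h3 := ih3 k (by omega)
        have h4 := odd_down hf hg' h2 (s := s) hg (by omega) k (by omega)
        omega

/-- If the path leads from `(a, b)` to `(c, d)`, `c < b < d`, then `(c, b)` is an edge. -/
theorem corner_of_reach {K a b c d : ℕ} (h0 : Ed K a b) (hcb : c < b) (hbd : b < d)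
    (h : Reach K (a, b) (c, d)) : Ed K c b := by
  rcases (reach_corner h0 hcb h le_rfl).2 with h1 | h1
  · simp only at h1; omega
  · exact h1.2.1

/-- No three edges are pairwise in the special position. -/
theorem no_triple {K b1 a2 b2 a3 b3 : ℕ} (h22 : Ed K a2 b2)
    (h12 : a2 < b1 ∧ b1 < b2 ∧ Ed K a2 b1) (h23 : a3 < b2 ∧ b2 < b3 ∧ Ed K a3 b2)
    (h13 : a3 < b1 ∧ b1 < b3 ∧ Ed K a3 b1) (h : a2 < a3) : False := by
  obtain ⟨k, q, r, -, -, e1, e2, -⟩ := h22.data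
  have h3 := even_right h12.2.2 h22 h12.2.1 (s := a3) h.le h13.1 k (by omega)
  have h4 := odd_down h22 h23.2.2 h (s := a3) le_rfl h23.1 k (by omega)
  omega

end Pool.Agent.CLow
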