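import Mathlib

/-!
# Piecewise linear interpolation of integer nodes
-/

set_option autoImplicit false

namespace Pool.Agent.CLow

open Set

/-- The piecewise linear function with the value `v m` at the integer `m`. -/
noncomputable def pl (v : ℤ → ℝ) (u : ℝ) : ℝ :=
  (1 - Int.fract u) * v ⌊u⌋ + Int.fract u * v (⌊u⌋ + 1)

theorem pl_int (v : ℤ → ℝ) (m : ℤ) : pl v m = v m := by
  simp [pl]

theorem pl_nat (v : ℤ → ℝ) (m : ℕ) : pl v m = v m := by
  simp [pl]

theorem pl_period {v : ℤ → ℝ} {P : ℤ} (h : ∀ j, v (j + P) = v j) (u : ℝ) :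
    pl v (u + P) = pl v u := by
  unfold pl
  rw [Int.fract_add_intCast, Int.floor_add_intCast]
  rw [h, show ⌊u⌋ + P + 1 = (⌊u⌋ + 1) + P by ring, h]

theorem pl_period' {v : ℤ → ℝ} {P : ℤ} (h : ∀ j, v (j + P) = v j) (u : ℝ) (k : ℤ) :
    pl v (u + k * P) = pl v u := by
  have h' : ∀ j, v (j + k * P) = v j := by
    intro j
    exact (Function.Periodic.int_mul (f := v) (c := P) h k) j
  have := pl_period h' u
  push_cast at this
  exact this

/-- The affine form on one interval. -/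
theorem pl_eq (v : ℤ → ℝ) (m : ℤ) {u : ℝ} (h : u ∈ Icc (m : ℝ) (m + 1)) :
    pl v u = v m + (v (m + 1) - v m) * (u - m) := by
  obtain ⟨h1, h2⟩ := h
  rcases h2.lt_or_eq with h2 | h2
  · have hf : ⌊u⌋ = m := Int.floor_eq_iff.2 ⟨h1, h2⟩
    have hfr : Int.fract u = u - m := by rw [Int.fract, hf]
    rw [pl, hf, hfr]
    ring
  · have : u = ((m + 1 : ℤ) : ℝ) := by push_cast; exact h2
    rw [this, pl_int]
    push_cast
    ring

theorem pl_cont (v : ℤ → ℝ) : Continuous (pl v) := by
  have hc : ∀ m : ℤ, ContinuousOn (pl v) (Icc (m : ℝ) (m + 1)) := by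
    intro m
    have : ContinuousOn (fun u : ℝ => v m + (v (m + 1) - v m) * (u - m)) (Icc (m : ℝ) (m + 1)) := by
      fun_prop
    exact this.congr fun u hu => pl_eq v m hu
  rw [continuous_iff_continuousAt]
  intro x
  set m := ⌊x⌋ with hm
  have h1 : (m : ℝ) ≤ x := Int.floor_le x
  have h2 : x < m + 1 := Int.lt_floor_add_one x
  rcases h1.lt_or_eq with h1 | h1
  · exact (hc m).continuousAt (Icc_mem_nhds h1 h2)
  · have a1 : ContinuousWithinAt (pl v) (Icc (m : ℝ) (m + 1)) x := hc m x ⟨h1.le, h2.le⟩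
    have a2 : ContinuousWithinAt (pl v) (Icc ((m - 1 : ℤ) : ℝ) ((m - 1 : ℤ) + 1)) x :=
      hc (m - 1) x ⟨by push_cast; linarith, by push_cast; linarith⟩
    have a3 := a2.union a1
    refine a3.continuousAt ?_
    have : Icc ((m - 1 : ℤ) : ℝ) ((m - 1 : ℤ) + 1) ∪ Icc (m : ℝ) (m + 1) =
        Icc ((m - 1 : ℤ) : ℝ) (m + 1) := by
      have e : (((m - 1 : ℤ) : ℝ) + 1) = m := by push_cast; ring
      rw [e]
      exact Icc_union_Icc_eq_Icc (by push_cast; linarith) (by linarith)
    rw [this]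
    exact Icc_mem_nhds (by push_cast; linarith) h2

/-- Comparison: if the nodes of `v` are below those of `w`, except for a common one, then the
functions are equal only there. -/
theorem pl_eq_imp {v w : ℤ → ℝ} {x y j0 : ℤ} {u : ℝ} (hx : (x : ℝ) ≤ u) (hy : u ≤ y)
    (h : ∀ j, x ≤ j → j ≤ y → j ≠ j0 → v j < w j) (h0 : v j0 ≤ w j0)
    (he : pl v u = pl w u) : u = j0 := by
  set m := ⌊u⌋ with hm
  have hm1 : x ≤ m := Int.le_floor.2 hx
  have hm2 : (m : ℝ) ≤ u := Int.floor_le u
  have hm3 : u < m + 1 := Int.lt_floor_add_one u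
  have hmy : m ≤ y := by
    have : (m : ℝ) ≤ y := hm2.trans hy
    exact_mod_cast this
  have hu : u ∈ Icc (m : ℝ) (m + 1) := ⟨hm2, hm3.le⟩
  rw [pl_eq v m hu, pl_eq w m hu] at he
  rcases hm2.lt_or_eq with hlt | heq
  · exfalso
    have hmy' : m + 1 ≤ y := by
      have : (m : ℝ) < y := hlt.trans_le hy
      have : m < y := by exact_mod_cast this
      omega
    have t0 : 0 < u - m := by linarith
    have t1 : 0 < 1 - (u - m) := by linarith
    have g1 : v m ≤ w m := by
      by_cases hc : m = j0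
      · rw [hc]; exact h0
      · exact (h m hm1 hmy hc).le
    have g2 : v (m + 1) ≤ w (m + 1) := by
      by_cases hc : m + 1 = j0
      · rw [hc]; exact h0
      · exact (h (m + 1) (by omega) hmy' hc).le
    have g3 : v m < w m ∨ v (m + 1) < w (m + 1) := by
      by_cases hc : m = j0
      · exact Or.inr (h (m + 1) (by omega) hmy' (by omega))
      · exact Or.inl (h m hm1 hmy hc)
    have e1 : (1 - (u - m)) * (w m - v m) + (u - m) * (w (m + 1) - v (m + 1)) = 0 := by
      linarith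
    rcases g3 with g3 | g3
    · nlinarith [mul_pos t1 (sub_pos.2 g3), mul_nonneg t0.le (sub_nonneg.2 g2)]
    · nlinarith [mul_pos t0 (sub_pos.2 g3), mul_nonneg t1.le (sub_nonneg.2 g1)]
  · rw [← heq] at he ⊢
    simp only [sub_self, mul_zero, add_zero] at he
    by_contra hc
    have hc' : m ≠ j0 := fun h => hc (by rw [h])
    exact absurd he (h m hm1 hmy hc').ne

/-- Two piecewise linear functions with different values at the nodes, except for one of them,
agree only at finitely many places. -/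
theorem pl_finite {v w : ℤ → ℝ} {x y j0 : ℤ}
    (h : ∀ j, x ≤ j → j ≤ y → j ≠ j0 → v j ≠ w j) :
    {u : ℝ | (x : ℝ) ≤ u ∧ u ≤ y ∧ pl v u = pl w u}.Finite := by
  have hcov : {u : ℝ | (x : ℝ) ≤ u ∧ u ≤ y ∧ pl v u = pl w u} ⊆
      (⋃ m ∈ Finset.Icc x y, {u : ℝ | u ∈ Icc (m : ℝ) (m + 1) ∧ u ≤ y ∧ pl v u = pl w u}) := by
    rintro u ⟨h1, h2, h3⟩
    have hm2 : (⌊u⌋ : ℝ) ≤ u := Int.floor_le u
    simp only [mem_iUnion]
    refine ⟨⌊u⌋, ?_, ⟨hm2, (Int.lt_floor_add_one u).le⟩, h2, h3⟩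
    rw [Finset.mem_Icc]
    refine ⟨Int.le_floor.2 h1, ?_⟩
    have : (⌊u⌋ : ℝ) ≤ y := hm2.trans h2
    exact_mod_cast this
  refine Set.Finite.subset (Set.Finite.biUnion (Finset.finite_toSet _) ?_) hcov
  intro m hm
  rw [Finset.mem_coe, Finset.mem_Icc] at hm
  by_cases hy : m = y
  · refine (Set.finite_singleton (y : ℝ)).subset ?_
    rintro u ⟨h1, h2, -⟩
    rw [mem_singleton_iff]
    have := h1.1
    rw [hy] at this
    linarith
  · have hmy : m + 1 ≤ y := by omega
    have g3 : v m ≠ w m ∨ v (m + 1) ≠ w (m + 1) := by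
      by_cases hc : m = j0
      · exact Or.inr (h (m + 1) (by omega) hmy (by omega))
      · exact Or.inl (h m hm.1 hm.2 hc)
    refine Set.Subsingleton.finite ?_
    rintro u ⟨hu, -, hu'⟩ z ⟨hz, -, hz'⟩
    rw [pl_eq v m hu, pl_eq w m hu] at hu'
    rw [pl_eq v m hz, pl_eq w m hz] at hz'
    have e1 : ((v (m + 1) - v m) - (w (m + 1) - w m)) * (u - z) = 0 := by linarith
    rcases mul_eq_zero.1 e1 with e2 | e2
    · exfalso
      have e3 : v m = w m := by
        have : (v (m + 1) - v m) = (w (m + 1) - w m) := by linarith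
        rw [this] at hu'
        linarith
      rcases g3 with g | g
      · exact g e3
      · exact g (by linarith)
    · linarith

end Pool.Agent.CLow
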