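import Pool.Agent.Hhelper93.CLow.Comb
import Pool.Agent.Hhelper93.CLow.PL

/-!
# The heights of the edges at the nodes
-/

set_option autoImplicit false

namespace Pool.Agent.CLow

open Set
open scoped Classical

/-- The number of vertices of one kind. -/
def nn (K : ℕ) : ℕ := 2 ^ (K + 1)

/-- The period. -/
def per (K : ℕ) : ℕ := 2 * nn K + nn K * nn K + 1

/-- The default height of an edge. -/
def key (K : ℕ) (e : ℕ × ℕ) : ℕ := nn K * e.1 + e.2

/-- The height of the edge `e` at the node `r`. -/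
noncomputable def hgt (K : ℕ) (e : ℕ × ℕ) (r : ℕ) : ℕ :=
  if r < 2 * nn K then
    if r = 2 * e.2 then nn K * nn K else if r = 2 * e.1 + 1 then nn K * e.1 else key K e
  else if r = 2 * nn K + nn K * nn K then key K e
  else if Reach K e ((r - 2 * nn K) / nn K, (r - 2 * nn K) % nn K) then key K e
  else key K e + nn K * nn K

theorem key_lt {K : ℕ} {e : ℕ × ℕ} (h : Ed K e.1 e.2) : key K e < nn K * nn K := by
  have h1 : e.2 < nn K := h.lt'
  have h2 := h.lt
  have h3 : nn K * (e.1 + 1) ≤ nn K * nn K := Nat.mul_le_mul_left _ (by omega)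
  rw [key]
  rw [mul_add] at h3
  omega

theorem key_row {K a b b' : ℕ} (h : b < b') : key K (a, b) < key K (a, b') := by
  simp only [key]; omega

theorem key_col {K a a' b : ℕ} (h : Ed K a b) (h' : a < a') :
    nn K * a + b < nn K * a' ∧ key K (a, b) < nn K * a' ∧ key K (a, b) < key K (a', b) := by
  have h1 : b < nn K := h.lt'
  have h3 : nn K * (a + 1) ≤ nn K * a' := Nat.mul_le_mul_left _ (by omega)
  simp only [key]
  rw [mul_add] at h3
  refine ⟨?_, ?_, ?_⟩ <;> omega

theorem hgt_row {K a b b' : ℕ} (h : Ed K a b) (h' : Ed K a b') (hb : b < b') {r : ℕ}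
    (hr : 2 * b' ≤ r ∨ r ≤ 2 * a + 1) (hr1 : r ≠ 2 * a + 1) :
    hgt K (a, b) r < hgt K (a, b') r := by
  have h1 : b < nn K := h.lt'
  have h1' : b' < nn K := h'.lt'
  have h2 := h.lt
  have h3 := key_row (K := K) (a := a) hb
  have h4 := key_lt (K := K) (e := (a, b)) h
  have hmono : ∀ g, Reach K (a, b') g → Reach K (a, b) g := fun g hg =>
    Relation.ReflTransGen.head (show Step K (a, b) (a, b') from ⟨h, h', Or.inl ⟨rfl, hb⟩⟩) hg
  unfold hgt
  dsimp only
  split_ifs <;> first | omega | exact absurd (hmono _ ‹_›) ‹_›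

theorem hgt_col {K a a' b : ℕ} (h : Ed K a b) (h' : Ed K a' b) (ha : a < a') {r : ℕ}
    (hr1 : r ≠ 2 * b) :
    hgt K (a, b) r < hgt K (a', b) r := by
  have h1 : b < nn K := h.lt'
  have h2 := h.lt
  have h2' := h'.lt
  obtain ⟨-, h3, h3'⟩ := key_col h ha
  have h4 := key_lt (K := K) (e := (a, b)) h
  have h5 : nn K * a ≤ key K (a, b) := Nat.le_add_right _ _
  have hmono : ∀ g, Reach K (a', b) g → Reach K (a, b) g := fun g hg =>
    Relation.ReflTransGen.head (show Step K (a, b) (a', b) from ⟨h, h', Or.inr ⟨rfl, ha⟩⟩) hg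
  unfold hgt
  dsimp only
  split_ifs <;> first | omega | exact absurd (hmono _ ‹_›) ‹_›

theorem hgt_right {K a b : ℕ} (h : Ed K a b) : hgt K (a, b) (2 * b) = nn K * nn K := by
  have h1 : b < nn K := h.lt'
  unfold hgt
  dsimp only
  rw [if_pos (by omega), if_pos rfl]

theorem hgt_left {K a b : ℕ} (h : Ed K a b) : hgt K (a, b) (2 * a + 1) = nn K * a := by
  have h1 : b < nn K := h.lt'
  have h2 := h.lt
  unfold hgt
  dsimp only
  rw [if_pos (by omega), if_neg (by omega), if_pos rfl]

/-- Different edges have different heights, except for a common vertex. -/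
theorem hgt_ne {K a b c d : ℕ} (h : Ed K a b) (h' : Ed K c d) (hne : (a, b) ≠ (c, d)) {r : ℕ}
    (hb : ¬ (b = d ∧ r = 2 * b)) (ha : ¬ (a = c ∧ r = 2 * a + 1)) :
    hgt K (a, b) r ≠ hgt K (c, d) r := by
  have h1 : b < nn K := h.lt'
  have h1' : d < nn K := h'.lt'
  have h2 := h.lt
  have h2' := h'.lt
  have h4 := key_lt (K := K) (e := (a, b)) h
  have h4' := key_lt (K := K) (e := (c, d)) h'
  have hk : ∀ x y z w : ℕ, y < nn K → w < nn K → nn K * x + y = nn K * z + w → x = z ∧ y = w := by
    intro x y z w hy hw he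
    have e1 : x = z := by
      rcases lt_trichotomy x z with hh | hh | hh
      · have := Nat.mul_le_mul_left (nn K) (show x + 1 ≤ z from hh)
        rw [mul_add] at this; omega
      · exact hh
      · have := Nat.mul_le_mul_left (nn K) (show z + 1 ≤ x from hh)
        rw [mul_add] at this; omega
    subst e1
    exact ⟨rfl, by omega⟩
  have hkey : key K (a, b) ≠ key K (c, d) := by
    intro he
    obtain ⟨e1, e2⟩ := hk a b c d h1 h1' he
    exact hne (by rw [e1, e2])
  have hka : key K (a, b) ≠ nn K * c := by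
    intro he
    have := hk a b c 0 h1 (by omega) (by simpa [key] using he)
    omega
  have hkc : nn K * a ≠ key K (c, d) := by
    intro he
    have := hk a 0 c d (by omega) h1' (by simpa [key] using he)
    omega
  have hla : nn K * a ≤ key K (a, b) := Nat.le_add_right _ _
  have hlc : nn K * c ≤ key K (c, d) := Nat.le_add_right _ _
  unfold hgt
  dsimp only
  split_ifs <;> omega

theorem hgt_pass {K b : ℕ} {e : ℕ × ℕ} (hb : b < nn K) (h : e.2 ≠ b) :
    hgt K e (2 * b) = key K e := by
  unfold hgt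
  rw [if_pos (by omega), if_neg (by omega), if_neg (by omega)]

theorem hgt_after {K b : ℕ} {e : ℕ × ℕ} (hb : b < nn K) :
    hgt K e (2 * b + 1) = if e.1 = b then nn K * b else key K e := by
  unfold hgt
  rw [if_pos (by omega), if_neg (by omega)]
  by_cases h : e.1 = b
  · rw [if_pos (by omega), if_pos h, h]
  · rw [if_neg (by omega), if_neg h]

theorem hgt_last {K : ℕ} {e : ℕ × ℕ} : hgt K e (2 * nn K + nn K * nn K) = key K e := by
  unfold hgt
  rw [if_neg (by omega), if_pos rfl]

theorem hgt_base {K : ℕ} {e g : ℕ × ℕ} (hg : Ed K g.1 g.2) :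
    hgt K e (2 * nn K + key K g) =
      if Reach K e g then key K e else key K e + nn K * nn K := by
  have h1 := key_lt hg
  have h2 : g.2 < nn K := hg.lt'
  have h3 : (2 * nn K + key K g - 2 * nn K) / nn K = g.1 := by
    rw [Nat.add_sub_cancel_left, key, Nat.mul_add_div (by omega), Nat.div_eq_of_lt h2, add_zero]
  have h4 : (2 * nn K + key K g - 2 * nn K) % nn K = g.2 := by
    rw [Nat.add_sub_cancel_left, key, Nat.mul_add_mod, Nat.mod_eq_of_lt h2]
  unfold hgt
  rw [if_neg (by omega), if_neg (by omega), h3, h4]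

/-- The height at an integer, periodic. -/
noncomputable def nd (K : ℕ) (e : ℕ × ℕ) (j : ℤ) : ℝ := (hgt K e (j % (per K : ℤ)).toNat : ℝ)

theorem per_pos (K : ℕ) : 0 < per K := by unfold per; omega

theorem nd_period (K : ℕ) (e : ℕ × ℕ) (j : ℤ) : nd K e (j + (per K : ℤ)) = nd K e j := by
  unfold nd
  rw [Int.add_emod_right]

theorem nd_nat (K : ℕ) (e : ℕ × ℕ) {r : ℕ} (h : r < per K) : nd K e (r : ℤ) = hgt K e r := by
  unfold nd
  rw [Int.emod_eq_of_lt (by omega) (by exact_mod_cast h), Int.toNat_natCast]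

theorem nd_nat' (K : ℕ) (e : ℕ × ℕ) {r : ℕ} (h : r < per K) :
    nd K e ((r : ℤ) + (per K : ℤ)) = hgt K e r := by
  rw [nd_period, nd_nat K e h]

/-- The residue of an integer. -/
theorem nd_res (K : ℕ) {j : ℤ} (h0 : 0 ≤ j) (h1 : j < 2 * (per K : ℤ)) :
    ∃ r : ℕ, r < per K ∧ (j = r ∨ j = r + per K) ∧ ∀ e, nd K e j = hgt K e r := by
  have hp := per_pos K
  by_cases h : j < per K
  · refine ⟨j.toNat, by omega, Or.inl (by omega), fun e => ?_⟩
    rw [← nd_nat K e (show j.toNat < per K by omega), Int.toNat_of_nonneg h0]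
  · refine ⟨(j - per K).toNat, by omega, Or.inr (by omega), fun e => ?_⟩
    rw [← nd_nat' K e (show (j - per K).toNat < per K by omega),
      Int.toNat_of_nonneg (by omega)]
    congr 1
    ring

end Pool.Agent.CLow
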